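import Pool.Agent.H.MP_f23a5d_lc.Main

set_option autoImplicit false

namespace Pool.Agent.Results.MP_f23a5d_lc.ConvexityTester

open Pool.Agent.H.MP_f23a5d_lc

/-- The exponential dependence on the dimension is not necessary for non-tolerant `L₁` testing
of convexity: for each `δ > 0` the constant function `h = 1 + δ` satisfies `h d / d → 0`, and for
each dimension `d` there is a constant `C` such that for all `n ≥ 1` and all `ε ∈ (0, 1)` there
is a non-tolerant `L₁` tester for convexity of functions `[n]^d → [0, 1]` with parameter `ε` and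
query complexity at most `C * ε ^ (-(h d))`. -/
theorem result (δ : ℝ) (hδ : 0 < δ) :
    ∃ h : ℕ → ℝ, (∀ d, h d = 1 + δ) ∧
      Filter.Tendsto (fun d : ℕ => h d / d) Filter.atTop (nhds 0) ∧
      ∀ d : ℕ, ∃ C : ℝ, 0 < C ∧ ∀ n : ℕ, 1 ≤ n → ∀ ε : ℝ, 0 < ε → ε < 1 →
        ∃ (A : Alg (Fin d → Fin n)) (q : ℕ), A.Within q ∧ (q : ℝ) ≤ C * ε ^ (-(h d)) ∧
          IsConvexityTester ε A := by
  refine ⟨fun _ => 1 + δ, fun _ => rfl, ?_, fun d => main d hδ⟩
  exact tendsto_const_nhds.div_atTop tendsto_natCast_atTop_atTop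

end Pool.Agent.Results.MP_f23a5d_lc.ConvexityTester
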